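import Pool.Agent.V11235.TreeTranslate

/-!
Omissibility for acceptable formulae.
-/

namespace Pool.Agent.Results.MP_3f42a7_lc.Omissibility

open Pool.Agent.V11235.TruthTree

/-- Two formulae share a sentence letter. -/
def ShareLetter (a b : Fm) : Prop := ∃ n, n ∈ letters a ∧ n ∈ letters b

/-- The omissibility property of a set of formulae. -/
def Omissible (S : Set Fm) : Prop :=
  ∀ α β γ : Fm, ¬ ShareLetter β α → ¬ ShareLetter β γ →
    (Fm.imp (.and α β) γ ∈ S ∨ Fm.imp α (.or β γ) ∈ S) → Fm.imp α γ ∈ S

/-- The set of acceptable formulae has the omissibility property. -/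
theorem result : Omissible (Acceptable Crashes) := by
  intro α β γ h1 h2 h
  exact omissible α β γ (fun n hn ha => h1 ⟨n, hn, ha⟩) (fun n hn hc => h2 ⟨n, hn, hc⟩) h

end Pool.Agent.Results.MP_3f42a7_lc.Omissibility
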